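import Pool.Agent.R296.VC.Fib

set_option autoImplicit false

/-! # Windows over one base point -/

namespace Pool.Agent.R296.MB

open Finset Filter Topology
open Pool.Agent.Helper602.MK (ee)
open Pool.Agent.Helper602.MK.N_J1c (c_ee_add c_ee_int c_norm_ee)
open Pool.Agent.Y842.PH Pool.Agent.Y842.CX Pool.Agent.R296.RE Pool.Agent.R296.VC

noncomputable section

variable {X Y : Type*}

/-- the square mean of the windows over one base point -/
theorem quad_pt {f : ℕ → ℤ} (hb : ∀ n, |f n| ≤ 1) {S : Y → Y} {ι : Type*} (s : Finset ι)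
    (w : ι → ℕ → Y → ℂ) (H : ℕ) (ε : ℝ) (hε : 0 < ε) (N : ℕ) (y : Y)
    (hoff : ∀ i ∈ s, ∀ m ∈ range H, ∀ m' ∈ range H, m ≠ m' →
      ‖∑ n ∈ range N, ((f (n + m) : ℂ) * f (n + m')) * (w i m (S^[n] y) * (starRingEnd ℂ) (w i m' (S^[n] y)))‖ ≤
        ε / ((s.card + 1) * (H + 1) ^ 2) * N) (θ : ℝ) :
      ∑ n ∈ range N, ∑ i ∈ s, ‖∑ m ∈ range H, tw f θ (n + m) * w i m (S^[n] y)‖ ^ 2 ≤
        ∑ n ∈ range N, ∑ i ∈ s, ∑ m ∈ range H, ‖w i m (S^[n] y)‖ ^ 2 + ε * N := by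
  classical
  set η : ℝ := ε / ((s.card + 1) * (H + 1) ^ 2) with hη
  have hη0 : 0 < η := by positivity
  have hN0 : (0 : ℝ) ≤ N := Nat.cast_nonneg N
  -- expansion
  have hexp : ∀ i n, ‖∑ m ∈ range H, tw f θ (n + m) * w i m (S^[n] y)‖ ^ 2 =
      ∑ m ∈ range H, ∑ m' ∈ range H, ((tw f θ (n + m) * (starRingEnd ℂ) (tw f θ (n + m'))) *
        (w i m (S^[n] y) * (starRingEnd ℂ) (w i m' (S^[n] y)))).re := by
    intro i n
    have h1 : ((‖∑ m ∈ range H, tw f θ (n + m) * w i m (S^[n] y)‖ ^ 2 : ℝ) : ℂ) =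
        ∑ m ∈ range H, ∑ m' ∈ range H, (tw f θ (n + m) * (starRingEnd ℂ) (tw f θ (n + m'))) *
        (w i m (S^[n] y) * (starRingEnd ℂ) (w i m' (S^[n] y))) := by
      push_cast
      rw [← Complex.mul_conj', map_sum, sum_mul_sum]
      refine sum_congr rfl fun m _ => sum_congr rfl fun m' _ => ?_
      rw [map_mul]
      ring
    have h2 := congrArg Complex.re h1
    rw [Complex.ofReal_re] at h2
    rw [h2, Complex.re_sum]
    exact sum_congr rfl fun m _ => Complex.re_sum _ _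
  have hone : ∀ i ∈ s, ∀ m ∈ range H, ∀ m' ∈ range H,
      ∑ n ∈ range N, ((tw f θ (n + m) * (starRingEnd ℂ) (tw f θ (n + m'))) *
        (w i m (S^[n] y) * (starRingEnd ℂ) (w i m' (S^[n] y)))).re ≤
      (if m = m' then ∑ n ∈ range N, ‖w i m (S^[n] y)‖ ^ 2 else 0) + η * N := by
    intro i hi m hm m' hm'
    by_cases h : m = m'
    · subst h
      rw [if_pos rfl]
      have : ∑ n ∈ range N, ((tw f θ (n + m) * (starRingEnd ℂ) (tw f θ (n + m))) *
          (w i m (S^[n] y) * (starRingEnd ℂ) (w i m (S^[n] y)))).re ≤ ∑ n ∈ range N, ‖w i m (S^[n] y)‖ ^ 2 := by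
        refine sum_le_sum fun n _ => ?_
        rw [Complex.mul_conj', Complex.mul_conj']
        have e : ((‖tw f θ (n + m)‖ : ℂ) ^ 2 * (‖w i m (S^[n] y)‖ : ℂ) ^ 2) =
            ((‖tw f θ (n + m)‖ ^ 2 * ‖w i m (S^[n] y)‖ ^ 2 : ℝ) : ℂ) := by push_cast; ring
        rw [e, Complex.ofReal_re]
        have h1 : ‖tw f θ (n + m)‖ ^ 2 ≤ 1 := pow_le_one₀ (norm_nonneg _) (norm_tw hb θ _)
        nlinarith [sq_nonneg ‖w i m (S^[n] y)‖]
      have : 0 ≤ η * N := by positivity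
      linarith
    · rw [if_neg h, zero_add]
      have h1 := hoff i hi m hm m' hm' h
      have e1 : ∑ n ∈ range N, ((tw f θ (n + m) * (starRingEnd ℂ) (tw f θ (n + m'))) *
          (w i m (S^[n] y) * (starRingEnd ℂ) (w i m' (S^[n] y)))).re =
          (ee (θ * m) * ee (-(θ * m')) *
            ∑ n ∈ range N, ((f (n + m) : ℂ) * f (n + m')) * (w i m (S^[n] y) * (starRingEnd ℂ) (w i m' (S^[n] y)))).re := by
        rw [mul_sum, Complex.re_sum]
        refine sum_congr rfl fun n _ => ?_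
        rw [tw_pair, mul_assoc (ee (θ * m) * ee (-(θ * m')))]
      rw [e1]
      refine (Complex.re_le_norm _).trans ?_
      rw [norm_mul, norm_mul, c_norm_ee, c_norm_ee, one_mul, one_mul]
      exact h1
  have hswap : ∑ n ∈ range N, ∑ i ∈ s, ‖∑ m ∈ range H, tw f θ (n + m) * w i m (S^[n] y)‖ ^ 2 =
      ∑ i ∈ s, ∑ m ∈ range H, ∑ m' ∈ range H, ∑ n ∈ range N, ((tw f θ (n + m) *
        (starRingEnd ℂ) (tw f θ (n + m'))) * (w i m (S^[n] y) * (starRingEnd ℂ) (w i m' (S^[n] y)))).re := by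
    simp only [hexp]
    rw [sum_comm]
    refine sum_congr rfl fun i _ => ?_
    rw [sum_comm]
    refine sum_congr rfl fun m _ => ?_
    rw [sum_comm]
  rw [hswap]
  calc ∑ i ∈ s, ∑ m ∈ range H, ∑ m' ∈ range H, ∑ n ∈ range N, ((tw f θ (n + m) *
        (starRingEnd ℂ) (tw f θ (n + m'))) * (w i m (S^[n] y) * (starRingEnd ℂ) (w i m' (S^[n] y)))).re
      ≤ ∑ i ∈ s, ∑ m ∈ range H, ∑ m' ∈ range H,
        ((if m = m' then ∑ n ∈ range N, ‖w i m (S^[n] y)‖ ^ 2 else 0) + η * N) :=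
        sum_le_sum fun i hi => sum_le_sum fun m hm => sum_le_sum fun m' hm' => hone i hi m hm m' hm'
    _ = ∑ i ∈ s, ∑ m ∈ range H, (∑ n ∈ range N, ‖w i m (S^[n] y)‖ ^ 2 + H * (η * N)) := by
        refine sum_congr rfl fun i _ => sum_congr rfl fun m hm => ?_
        rw [sum_add_distrib, sum_const, card_range, nsmul_eq_mul, sum_ite_eq, if_pos hm]
    _ = ∑ n ∈ range N, ∑ i ∈ s, ∑ m ∈ range H, ‖w i m (S^[n] y)‖ ^ 2 + s.card * (H * (H * (η * N))) := by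
        have e : ∀ i ∈ s, ∑ m ∈ range H, (∑ n ∈ range N, ‖w i m (S^[n] y)‖ ^ 2 + H * (η * N)) =
            ∑ n ∈ range N, ∑ m ∈ range H, ‖w i m (S^[n] y)‖ ^ 2 + H * (H * (η * N)) := by
          intro i _
          rw [sum_add_distrib, sum_const, card_range, nsmul_eq_mul, sum_comm]
        rw [sum_congr rfl e, sum_add_distrib, sum_const, nsmul_eq_mul, sum_comm]
    _ ≤ _ := by
        refine add_le_add le_rfl ?_
        have h1 : (s.card : ℝ) * (H * (H * (η * N))) = s.card * H ^ 2 * η * N := by ring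
        rw [h1]
        refine mul_le_mul_of_nonneg_right ?_ hN0
        rw [hη, mul_div_assoc']
        rw [div_le_iff₀ (by positivity)]
        have h2 : (s.card : ℝ) * H ^ 2 ≤ (s.card + 1) * (H + 1) ^ 2 := by
          have : (0 : ℝ) ≤ H := Nat.cast_nonneg H
          have : (0 : ℝ) ≤ s.card := Nat.cast_nonneg _
          nlinarith [mul_nonneg (Nat.cast_nonneg (α := ℝ) s.card) (Nat.cast_nonneg (α := ℝ) H), sq_nonneg (H : ℝ)]
        nlinarith


theorem fib_pt {f : ℕ → ℤ} (hb : ∀ n, |f n| ≤ 1) {S : Y → Y} {T : X → X} {π : X → Y}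
    {F : X → ℂ} {C : ℝ} (hC : ∀ x, ‖F x‖ ≤ C) {ι : Type*} (s : Finset ι) (w : ι → ℕ → Y → ℂ) (H : ℕ)
    (hH : 1 ≤ H) {t δ κ : ℝ} (ht : 0 < t) (hw : ∀ y, ∑ i ∈ s, ∑ m ∈ range H, ‖w i m y‖ ^ 2 ≤ t ^ 2 * H)
    {G : Set Y} (N : ℕ) (y : Y)
    (hG : ∃ V : Finset ℕ, (∀ n < N, S^[n] y ∉ G → n ∈ V) ∧ (V.card : ℝ) ≤ κ * N) (hδ : 0 ≤ δ)
    (hc : ∀ x, π x ∈ G → ∃ c : ι → ℂ, ∑ i ∈ s, ‖c i‖ ^ 2 ≤ H ∧
      ∑ m ∈ range H, ‖F (T^[m] x) - ∑ i ∈ s, c i * w i m (π x)‖ ≤ δ * H)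
    (hq : ∀ θ : ℝ, ∑ n ∈ range N, ∑ i ∈ s, ‖∑ m ∈ range H, tw f θ (n + m) * w i m (S^[n] y)‖ ^ 2 ≤
        ∑ n ∈ range N, ∑ i ∈ s, ∑ m ∈ range H, ‖w i m (S^[n] y)‖ ^ 2 + t ^ 2 * H * N)
    (x : ℕ → X) (hx : ∀ n, π (x n) = S^[n] y) (θ : ℝ) :
      ∑ n ∈ range N, ‖∑ m ∈ range H, tw f θ (n + m) * F (T^[m] (x n))‖ ≤ (δ + 2 * t + κ * C) * (H * N) := by
  classical
  have hH0 : (0 : ℝ) < H := by exact_mod_cast hH
  have hC0 : 0 ≤ C := (norm_nonneg _).trans (hC (x 0))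
  obtain ⟨V, hV1, hV2⟩ := hG
  have h2 := hq θ
  set g : ι → ℕ → ℂ := fun i n => ∑ m ∈ range H, tw f θ (n + m) * w i m (S^[n] y) with hg
  have h3 : ∑ n ∈ range N, ∑ i ∈ s, ‖g i n‖ ^ 2 ≤ 2 * t ^ 2 * (H * N) := by
    refine h2.trans ?_
    have h4 : ∑ n ∈ range N, ∑ i ∈ s, ∑ m ∈ range H, ‖w i m (S^[n] y)‖ ^ 2 ≤ ∑ _n ∈ range N, t ^ 2 * H :=
      sum_le_sum fun n _ => hw _
    rw [sum_const, card_range, nsmul_eq_mul] at h4
    linarith
  have hone : ∀ n ∈ range N, ‖∑ m ∈ range H, tw f θ (n + m) * F (T^[m] (x n))‖ ≤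
      (δ * H + t / 2 * H + 1 / (2 * t) * ∑ i ∈ s, ‖g i n‖ ^ 2) + (if n ∈ V then (H : ℝ) * C else 0) := by
    intro n hnN
    have hpos : 0 ≤ δ * H + t / 2 * H + 1 / (2 * t) * ∑ i ∈ s, ‖g i n‖ ^ 2 := by positivity
    by_cases hnV : n ∈ V
    · rw [if_pos hnV]
      have h4 : ‖∑ m ∈ range H, tw f θ (n + m) * F (T^[m] (x n))‖ ≤ H * C := by
        refine (norm_sum_le _ _).trans ((sum_le_sum fun m _ => ?_).trans (le_of_eq (by
          rw [sum_const, card_range, nsmul_eq_mul])))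
        rw [norm_mul]
        calc ‖tw f θ (n + m)‖ * ‖F (T^[m] (x n))‖ ≤ 1 * C :=
              mul_le_mul (norm_tw hb θ _) (hC _) (norm_nonneg _) zero_le_one
          _ = C := one_mul C
      linarith
    rw [if_neg hnV, add_zero]
    have hnG : π (x n) ∈ G := by
      by_contra h
      rw [hx] at h
      exact hnV (hV1 n (mem_range.1 hnN) h)
    obtain ⟨c, hc1, hc2⟩ := hc (x n) hnG
    rw [hx] at hc2
    have e1 : ∑ m ∈ range H, tw f θ (n + m) * F (T^[m] (x n)) =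
        ∑ m ∈ range H, tw f θ (n + m) * (F (T^[m] (x n)) - ∑ i ∈ s, c i * w i m (S^[n] y)) +
        ∑ i ∈ s, c i * g i n := by
      have e2 : ∑ i ∈ s, c i * g i n = ∑ m ∈ range H, tw f θ (n + m) * ∑ i ∈ s, c i * w i m (S^[n] y) := by
        simp only [hg, mul_sum]
        rw [sum_comm]
        refine sum_congr rfl fun m _ => sum_congr rfl fun i _ => ?_
        ring
      rw [e2, ← sum_add_distrib]
      refine sum_congr rfl fun m _ => ?_
      ring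
    rw [e1]
    refine (norm_add_le _ _).trans ?_
    rw [add_assoc]
    refine add_le_add ?_ ?_
    · refine (norm_sum_le _ _).trans (le_trans (sum_le_sum fun m _ => ?_) hc2)
      rw [norm_mul]
      calc ‖tw f θ (n + m)‖ * _ ≤ 1 * _ := mul_le_mul_of_nonneg_right (norm_tw hb θ _) (norm_nonneg _)
        _ = _ := one_mul _
    · refine (norm_sum_le _ _).trans ?_
      calc ∑ i ∈ s, ‖c i * g i n‖ ≤ ∑ i ∈ s, (t / 2 * ‖c i‖ ^ 2 + 1 / (2 * t) * ‖g i n‖ ^ 2) := by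
            refine sum_le_sum fun i _ => ?_
            rw [norm_mul]
            have h5 : 0 ≤ (t * ‖c i‖ - ‖g i n‖) ^ 2 / (2 * t) := by positivity
            have h6 : (t * ‖c i‖ - ‖g i n‖) ^ 2 / (2 * t) =
                t / 2 * ‖c i‖ ^ 2 + 1 / (2 * t) * ‖g i n‖ ^ 2 - ‖c i‖ * ‖g i n‖ := by
              field_simp
              ring
            linarith
        _ = t / 2 * ∑ i ∈ s, ‖c i‖ ^ 2 + 1 / (2 * t) * ∑ i ∈ s, ‖g i n‖ ^ 2 := by
            rw [sum_add_distrib, ← mul_sum, ← mul_sum]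
        _ ≤ _ := add_le_add (mul_le_mul_of_nonneg_left hc1 (by positivity)) le_rfl
  have hVs : ∑ n ∈ range N, (if n ∈ V then (H : ℝ) * C else 0) ≤ κ * C * (H * N) := by
    have h5 : ∑ n ∈ range N, (if n ∈ V then (H : ℝ) * C else 0) ≤ ∑ _n ∈ V, (H : ℝ) * C := by
      rw [← sum_filter]
      refine sum_le_sum_of_subset_of_nonneg (fun n hn => (mem_filter.1 hn).2) fun n _ _ => by positivity
    rw [sum_const, nsmul_eq_mul] at h5
    have h6 : (V.card : ℝ) * (H * C) ≤ κ * N * (H * C) := mul_le_mul_of_nonneg_right hV2 (by positivity)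
    linarith
  calc ∑ n ∈ range N, ‖∑ m ∈ range H, tw f θ (n + m) * F (T^[m] (x n))‖
      ≤ ∑ n ∈ range N, ((δ * H + t / 2 * H + 1 / (2 * t) * ∑ i ∈ s, ‖g i n‖ ^ 2) +
        (if n ∈ V then (H : ℝ) * C else 0)) := sum_le_sum hone
    _ = N * (δ * H + t / 2 * H) + 1 / (2 * t) * ∑ n ∈ range N, ∑ i ∈ s, ‖g i n‖ ^ 2 +
        ∑ n ∈ range N, (if n ∈ V then (H : ℝ) * C else 0) := by
        rw [sum_add_distrib, sum_add_distrib, sum_const, card_range, nsmul_eq_mul, ← mul_sum]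
    _ ≤ N * (δ * H + t / 2 * H) + 1 / (2 * t) * (2 * t ^ 2 * (H * N)) + κ * C * (H * N) :=
        add_le_add (add_le_add le_rfl (mul_le_mul_of_nonneg_left h3 (by positivity))) hVs
    _ = (δ + t / 2 + t + κ * C) * (H * N) := by
        field_simp
    _ ≤ (δ + 2 * t + κ * C) * (H * N) := by
        apply mul_le_mul_of_nonneg_right _ (by positivity)
        linarith


end

end Pool.Agent.R296.MB
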