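import Pool.Agent.R296.SM.Main
import Pool.Agent.R296.SM.Fin
import Pool.Agent.R296.VC.Quad

set_option autoImplicit false

/-! # Transference: correlations with most shifts -/

namespace Pool.Agent.R296.MB

open Finset Filter Topology MeasureTheory
open Pool.Agent.Helper602.MK (ee)
open Pool.Agent.Helper602.MK.N_J1c (c_ee_add c_ee_int c_norm_ee)
open Pool.Agent.Y842.PH Pool.Agent.Y842.CX Pool.Agent.R296.RE Pool.Agent.R296.VC Pool.Agent.R296.SM

noncomputable section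

/-- correlations with the shifts of a bounded sequence, in the mean square over the shifts -/
theorem trans (a : ℕ → ℂ) (N : ℕ) {κ : ℝ} (hκ : ∀ α : ℝ, ‖∑ n ∈ range N, a n * ee (α * n)‖ ≤ κ)
    (c : ℕ → ℂ) {C : ℝ} (hC : ∀ n, ‖c n‖ ≤ C) (M : ℕ) :
    ∑ l ∈ range M, ‖∑ n ∈ range N, a n * c (n + l)‖ ^ 2 ≤ κ ^ 2 * (C ^ 2 * (N + M)) := by
  classical
  set Sa : Finset ℤ := (range N).image (fun n : ℕ => -(n : ℤ)) with hSa
  set ca : ℤ → ℂ := fun k => a (-k).toNat with hca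
  set h : ℤ → ℂ := fun m => c (m.toNat - 1) with hh
  have hsum : ∀ (F : ℤ → ℂ), ∑ k ∈ Sa, F k = ∑ n ∈ range N, F (-(n : ℤ)) := by
    intro F
    rw [hSa, sum_image fun a _ b _ hab => by simpa using hab]
  have hA : ∀ η : UnitAddCircle, ‖TP Sa ca η‖ ≤ κ := by
    intro η
    induction η using QuotientAddGroup.induction_on with
    | H α =>
      refine le_trans (le_of_eq ?_) (hκ (-α))
      unfold TP
      rw [hsum]
      congr 1
      refine sum_congr rfl fun n _ => ?_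
      rw [hca]
      simp only [neg_neg, Int.toNat_natCast]
      congr 1
      rw [fourier_coe_apply]
      unfold ee
      congr 1
      push_cast
      ring
  have hD : ∀ k ∈ Sa, |k| ≤ ((N : ℕ) : ℤ) := by
    intro k hk
    obtain ⟨n, hn, rfl⟩ := mem_image.1 hk
    rw [mem_range] at hn
    rw [abs_neg, Nat.abs_cast]
    exact_mod_cast hn.le
  have h1 : ∑ m ∈ Ioc (-((N : ℕ) : ℤ)) (((N + M : ℕ) : ℤ) + (N : ℕ)), ‖gw Sa ca (tr h (N + M)) m‖ ^ 2 ≤
      κ ^ 2 * (C ^ 2 * (N + M)) := by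
    rw [← Pool.Agent.R296.SM.pars]
    have hB : ∫ η : UnitAddCircle, ‖SZ h (N + M) η‖ ^ 2 ≤ C ^ 2 * (N + M) := by
      rw [SZ_eq_TP, Pool.Agent.R296.SM.pars]
      calc ∑ k ∈ Ioc (0 : ℤ) ((N + M : ℕ) : ℤ), ‖h k‖ ^ 2 ≤ ∑ _k ∈ Ioc (0 : ℤ) ((N + M : ℕ) : ℤ), C ^ 2 :=
            sum_le_sum fun k _ => pow_le_pow_left₀ (norm_nonneg _) (hC _) 2
        _ = _ := by
            rw [sum_const, Int.card_Ioc, sub_zero, Int.toNat_natCast, nsmul_eq_mul]
            push_cast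
            ring
    calc ∫ η : UnitAddCircle, ‖TP (Ioc (-((N : ℕ) : ℤ)) (((N + M : ℕ) : ℤ) + (N : ℕ))) (gw Sa ca (tr h (N + M))) η‖ ^ 2
        ≤ ∫ η : UnitAddCircle, κ ^ 2 * ‖SZ h (N + M) η‖ ^ 2 := by
          have c1 : Continuous fun η : UnitAddCircle =>
              ‖TP (Ioc (-((N : ℕ) : ℤ)) (((N + M : ℕ) : ℤ) + (N : ℕ))) (gw Sa ca (tr h (N + M))) η‖ ^ 2 :=
            (TP_cont _ _).norm.pow 2
          have c2 : Continuous fun η : UnitAddCircle => κ ^ 2 * ‖SZ h (N + M) η‖ ^ 2 :=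
            continuous_const.mul ((TP_cont _ _).norm.pow 2)
          refine integral_mono (int_of_cont c1 volume) (int_of_cont c2 volume) fun η => ?_
          show ‖TP _ (gw Sa ca (tr h (N + M))) η‖ ^ 2 ≤ κ ^ 2 * ‖SZ h (N + M) η‖ ^ 2
          rw [← TP_mul_SZ Sa ca N hD, norm_mul, mul_pow]
          exact mul_le_mul_of_nonneg_right (pow_le_pow_left₀ (norm_nonneg _) (hA η) 2) (sq_nonneg _)
      _ = κ ^ 2 * ∫ η : UnitAddCircle, ‖SZ h (N + M) η‖ ^ 2 := integral_const_mul _ _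
      _ ≤ _ := mul_le_mul_of_nonneg_left hB (sq_nonneg _)
  refine le_trans ?_ h1
  have h2 : ∀ l ∈ range M, ∑ n ∈ range N, a n * c (n + l) = gw Sa ca (tr h (N + M)) ((l : ℤ) + 1) := by
    intro l hl
    rw [mem_range] at hl
    unfold gw
    rw [hsum]
    refine sum_congr rfl fun n hn => ?_
    rw [mem_range] at hn
    have e1 : (l : ℤ) + 1 - -(n : ℤ) = ((n + l + 1 : ℕ) : ℤ) := by push_cast; ring
    rw [hca, e1]
    simp only [neg_neg, Int.toNat_natCast]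
    congr 1
    unfold tr
    rw [if_pos ⟨by positivity, by exact_mod_cast (by omega : n + l + 1 ≤ N + M)⟩, hh]
    simp only [Int.toNat_natCast, Nat.add_sub_cancel]
  rw [sum_congr rfl fun l hl => by rw [h2 l hl]]
  rw [← sum_image (f := fun m : ℤ => ‖gw Sa ca (tr h (N + M)) m‖ ^ 2) (g := fun l : ℕ => (l : ℤ) + 1)
    (s := range M) fun a _ b _ hab => by simpa using hab]
  refine sum_le_sum_of_subset_of_nonneg ?_ fun _ _ _ => sq_nonneg _
  intro m hm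
  obtain ⟨l, hl, rfl⟩ := mem_image.1 hm
  rw [mem_range] at hl
  rw [mem_Ioc]
  push_cast
  constructor <;> omega

/-- two shifts, twisted by any phase -/
lemma pair_phase {f : ℕ → ℤ} (hb : ∀ n, |f n| ≤ 1) {E : Set ℕ} (hE : Kf f E)
    (m m' : ℕ) (hm : m ≠ m') (ε : ℝ) (hε : 0 < ε) : ∃ N₀ : ℕ, ∀ N ≥ N₀, N ∉ E → ∀ α : ℝ,
      ‖∑ n ∈ range N, ((f (n + m) : ℂ) * f (n + m')) * ee (α * n)‖ ≤ ε * N := by
  rcases Nat.lt_or_gt_of_ne hm with h | h
  · obtain ⟨k, rfl⟩ := Nat.exists_eq_add_of_lt h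
    obtain ⟨N₀, h1⟩ := Kf_shift hb hE m (k + 1) (by omega) ε hε
    refine ⟨N₀, fun N hN hNE α => ?_⟩
    refine le_trans (le_of_eq ?_) (h1 N hN hNE α)
    unfold Cr
    congr 1
    refine sum_congr rfl fun n _ => ?_
    rw [show n + (m + k + 1) = n + (k + 1) + m by ring]
  · obtain ⟨k, rfl⟩ := Nat.exists_eq_add_of_lt h
    obtain ⟨N₀, h1⟩ := Kf_shift hb hE m' (k + 1) (by omega) ε hε
    refine ⟨N₀, fun N hN hNE α => ?_⟩
    refine le_trans (le_of_eq ?_) (h1 N hN hNE α)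
    unfold Cr
    congr 1
    refine sum_congr rfl fun n _ => ?_
    rw [show n + (m' + k + 1) = n + (k + 1) + m' by ring]
    ring

/-- Markov's inequality for finite sums -/
lemma markov (M : ℕ) (g : ℕ → ℝ) (hg : ∀ l, 0 ≤ g l) {τ B : ℝ} (hτ : 0 < τ) (h : ∑ l ∈ range M, g l ≤ τ * B) :
    (((range M).filter fun l => τ < g l).card : ℝ) ≤ B := by
  have h1 : (((range M).filter fun l => τ < g l).card : ℝ) * τ ≤ ∑ l ∈ range M, g l := by
    rw [← nsmul_eq_mul, ← sum_const]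
    refine le_trans (sum_le_sum fun l hl => (mem_filter.1 hl).2.le) ?_
    exact sum_le_sum_of_subset_of_nonneg (filter_subset _ _) fun l _ _ => hg l
  have h2 := h1.trans h
  rw [mul_comm] at h2
  exact le_of_mul_le_mul_left h2 hτ

/-- for most shifts the correlations are small -/
theorem most_shifts {f : ℕ → ℤ} (hb : ∀ n, |f n| ≤ 1) {E : Set ℕ} (hE : Kf f E)
    (m m' : ℕ) (hm : m ≠ m') {C : ℝ} (η κ : ℝ) (hη : 0 < η) (hκ : 0 < κ) :
    ∃ N₀ : ℕ, ∀ N ≥ N₀, N ∉ E → ∀ c : ℕ → ℂ, (∀ n, ‖c n‖ ≤ C) → ∀ M ≥ N,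
      (((range M).filter fun l => η * N < ‖∑ n ∈ range N, ((f (n + m) : ℂ) * f (n + m')) * c (n + l)‖).card : ℝ) ≤
        κ * M := by
  obtain ⟨ε, hε, hε1⟩ : ∃ ε : ℝ, 0 < ε ∧ ε ^ 2 * (2 * C ^ 2) ≤ η ^ 2 * κ := by
    refine ⟨Real.sqrt (η ^ 2 * κ / (2 * C ^ 2 + 1)), Real.sqrt_pos.2 (by positivity), ?_⟩
    rw [Real.sq_sqrt (by positivity), div_mul_eq_mul_div, div_le_iff₀ (by positivity)]
    have : 0 ≤ η ^ 2 * κ := by positivity
    nlinarith
  obtain ⟨N₀, h1⟩ := pair_phase hb hE m m' hm ε hε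
  refine ⟨N₀ + 1, fun N hN hNE c hc M hM => ?_⟩
  have hN0 : (0 : ℝ) < N := by exact_mod_cast (by omega : 0 < N)
  have hMN : (N : ℝ) ≤ M := by exact_mod_cast hM
  have h2 := trans (fun n => (f (n + m) : ℂ) * f (n + m')) N (h1 N (by omega) hNE) c hc M
  have h3 : ∑ l ∈ range M, ‖∑ n ∈ range N, ((f (n + m) : ℂ) * f (n + m')) * c (n + l)‖ ^ 2 ≤
      (η * N) ^ 2 * (κ * M) := by
    refine h2.trans ?_
    have h4 : (ε * N) ^ 2 * (C ^ 2 * (N + M)) ≤ (ε * N) ^ 2 * (C ^ 2 * (2 * M)) := by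
      refine mul_le_mul_of_nonneg_left (mul_le_mul_of_nonneg_left (by linarith) (sq_nonneg _)) (sq_nonneg _)
    refine h4.trans ?_
    have h5 : (ε * N) ^ 2 * (C ^ 2 * (2 * M)) = (ε ^ 2 * (2 * C ^ 2)) * (N ^ 2 * M) := by ring
    have h6 : (η * N) ^ 2 * (κ * M) = (η ^ 2 * κ) * (N ^ 2 * M) := by ring
    rw [h5, h6]
    exact mul_le_mul_of_nonneg_right hε1 (by positivity)
  have h4 := markov M (fun l => ‖∑ n ∈ range N, ((f (n + m) : ℂ) * f (n + m')) * c (n + l)‖ ^ 2)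
    (fun l => sq_nonneg _) (show 0 < (η * N) ^ 2 by positivity) h3
  refine le_trans ?_ h4
  have h5 : ((range M).filter fun l => η * N < ‖∑ n ∈ range N, ((f (n + m) : ℂ) * f (n + m')) * c (n + l)‖) ⊆
      ((range M).filter fun l => (η * N) ^ 2 < ‖∑ n ∈ range N, ((f (n + m) : ℂ) * f (n + m')) * c (n + l)‖ ^ 2) := by
    intro l hl
    rw [mem_filter] at hl ⊢
    exact ⟨hl.1, pow_lt_pow_left₀ hl.2 (by positivity) (by norm_num)⟩
  exact_mod_cast card_le_card h5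

end

end Pool.Agent.R296.MB
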