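import Pool.Agent.R296.MB.A
import Pool.Agent.R296.MB.B
import Pool.Agent.R296.SM.Lg

set_option autoImplicit false

/-! # Arbitrary base: most points of each orbit of the base -/

namespace Pool.Agent.R296.MB

open Finset Filter Topology
open Pool.Agent.Helper602.MK (ee)
open Pool.Agent.Y842.PH Pool.Agent.Y842.CX Pool.Agent.R296.RE Pool.Agent.R296.VC

noncomputable section

variable {X Y : Type} [TopologicalSpace X] [CompactSpace X] [TopologicalSpace Y] [CompactSpace Y] [T2Space Y]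

theorem most_windows {f : ℕ → ℤ} (hb : ∀ n, |f n| ≤ 1) {E : Set ℕ} (hE : Kf f E) {S : Y → Y} {P : Set Y}
    {T : X → X} (hT : Continuous T) {π : X → Y} (hπ : Continuous π) (hπT : ∀ x, π (T x) = S (π x)) {F : X → ℂ}
    (hF : Continuous F) {C : ℝ} (hC0 : 0 ≤ C) (hC : ∀ x, ‖F x‖ ≤ C)
    (hcov : ∀ δ : ℝ, 0 < δ → ∃ H : ℕ, 1 ≤ H ∧ ∃ G : Set Y, IsClosed G ∧ Mostly S P G δ ∧
      ∀ y ∈ G, CovAt T π F H δ (δ * H) y) (ε : ℝ) (hε : 0 < ε) :
    ∃ H₀ : ℕ, ∀ H ≥ H₀, ∃ N₀ : ℕ, ∀ N ≥ N₀, N ∉ E → ∀ M ≥ N, ∀ y ∈ P, ∃ V : Finset ℕ, (V.card : ℝ) ≤ ε * M ∧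
      ∀ l < M, l ∉ V → ∀ x : ℕ → X, (∀ n, π (x n) = S^[n] (S^[l] y)) → ∀ θ : ℝ,
      ∑ n ∈ range N, ‖∑ m ∈ range H, tw f θ (n + m) * F (T^[m] (x n))‖ ≤ ε * (H * N) := by
  classical
  set t : ℝ := ε / 16 with ht
  have ht0 : 0 < t := by positivity
  set κ : ℝ := ε / (32 * (C + 1)) with hκ
  have hκ0 : 0 < κ := by positivity
  set δ : ℝ := min (min (ε / 32) (t ^ 2 / (C ^ 2 + 1))) (κ * ε / 4) with hδ
  have hδ0 : 0 < δ := lt_min (lt_min (by positivity) (by positivity)) (by positivity)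
  obtain ⟨H₁, hH₁, G, hG, ⟨N₁, hGm⟩, h1⟩ := hcov δ hδ0
  have hH₁0 : (0 : ℝ) < H₁ := by exact_mod_cast hH₁
  have hKC : δ * H₁ * C ^ 2 ≤ t ^ 2 * H₁ := by
    have h2 : δ ≤ t ^ 2 / (C ^ 2 + 1) := (min_le_left _ _).trans (min_le_right _ _)
    rw [le_div_iff₀ (by positivity)] at h2
    nlinarith
  obtain ⟨ι, s, w, hw, hc⟩ := approx_of_cov hT hπ hF hC H₁ hH₁ hδ0 (by positivity) hKC hG h1
  -- the off diagonal terms
  set D : ℝ := (s.card + 1) * (H₁ + 1) ^ 2 with hD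
  have hD0 : 0 < D := by positivity
  set η₀ : ℝ := t ^ 2 * H₁ / D with hη₀
  have hη₀0 : 0 < η₀ := by positivity
  set κ₀ : ℝ := ε / 2 / D with hκ₀
  have hκ₀0 : 0 < κ₀ := by positivity
  have hoffex : ∀ (i : ι) (m m' : ℕ), ∃ N₀ : ℕ, m ≠ m' → ∀ N ≥ N₀, N ∉ E → ∀ c : ℕ → ℂ,
      (∀ n, ‖c n‖ ≤ ‖w i m‖ * ‖w i m'‖) → ∀ M ≥ N,
      (((range M).filter fun l => η₀ * N < ‖∑ n ∈ range N, ((f (n + m) : ℂ) * f (n + m')) * c (n + l)‖).card : ℝ) ≤
        κ₀ * M := by
    intro i m m'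
    by_cases hm : m = m'
    · exact ⟨0, fun h => absurd hm h⟩
    · obtain ⟨N₀, h2⟩ := most_shifts hb hE m m' hm (C := ‖w i m‖ * ‖w i m'‖) η₀ κ₀ hη₀0 hκ₀0
      exact ⟨N₀, fun _ => h2⟩
  choose N₀ hN₀ using hoffex
  set N₂ : ℕ := ∑ i ∈ s, ∑ m ∈ range H₁, ∑ m' ∈ range H₁, N₀ i m m' with hN₂
  have hle : ∀ i ∈ s, ∀ m ∈ range H₁, ∀ m' ∈ range H₁, N₀ i m m' ≤ N₂ := by
    intro i hi m hm m' hm'
    refine le_trans ?_ (single_le_sum (f := fun i => ∑ m ∈ range H₁, ∑ m' ∈ range H₁, N₀ i m m')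
      (fun _ _ => Nat.zero_le _) hi)
    refine le_trans ?_ (single_le_sum (f := fun m => ∑ m' ∈ range H₁, N₀ i m m') (fun _ _ => Nat.zero_le _) hm)
    exact single_le_sum (f := fun m' => N₀ i m m') (fun _ _ => Nat.zero_le _) hm'
  obtain ⟨H₀, hH₀⟩ := exists_nat_ge (8 * (H₁ * C) / ε)
  refine ⟨H₀ + 1, fun H hH => ?_⟩
  have hH0 : (0 : ℝ) < H := by exact_mod_cast (by omega : 0 < H)
  obtain ⟨N₃, hN₃⟩ := exists_nat_ge (4 * (H * C) / ε)
  refine ⟨N₁ + N₂ + N₃ + 1, fun N hN hNE M hM y hy => ?_⟩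
  have hN0 : (0 : ℝ) < N := by exact_mod_cast (by omega : 0 < N)
  have hMN : (N : ℝ) ≤ M := by exact_mod_cast hM
  obtain ⟨V₀, hV1, hV2⟩ := hGm (N + M) (by omega) y hy
  set g : ℕ → ℝ := fun l => (((range N).filter fun n => n + l ∈ V₀).card : ℝ) with hg
  have hgs : ∑ l ∈ range M, g l ≤ κ * N * (ε / 2 * M) := by
    have h3 : ∑ l ∈ range M, g l = ∑ n ∈ range N, (((range M).filter fun l => n + l ∈ V₀).card : ℝ) := by
      have e1 : ∀ l, g l = ∑ n ∈ range N, if n + l ∈ V₀ then (1 : ℝ) else 0 := by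
        intro l
        rw [hg, ← sum_filter, sum_const, nsmul_eq_mul, mul_one]
      have e2 : ∀ n, (((range M).filter fun l => n + l ∈ V₀).card : ℝ) =
          ∑ l ∈ range M, if n + l ∈ V₀ then (1 : ℝ) else 0 := by
        intro n
        rw [← sum_filter, sum_const, nsmul_eq_mul, mul_one]
      simp only [e1, e2]
      exact sum_comm
    rw [h3]
    have h4 : ∀ n ∈ range N, (((range M).filter fun l => n + l ∈ V₀).card : ℝ) ≤ V₀.card := by
      intro n _
      have : ((range M).filter fun l => n + l ∈ V₀).card ≤ V₀.card := by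
        refine card_le_card_of_injOn (fun l => n + l) (fun l hl => ?_) (fun a _ b _ hab => by simpa using hab)
        rw [mem_coe, mem_filter] at hl
        exact hl.2
      exact_mod_cast this
    refine (sum_le_sum h4).trans ?_
    rw [sum_const, card_range, nsmul_eq_mul]
    push_cast at hV2
    have h5 : δ ≤ κ * ε / 4 := min_le_right _ _
    calc (N : ℝ) * V₀.card ≤ N * (δ * (N + M)) := mul_le_mul_of_nonneg_left hV2 hN0.le
      _ ≤ N * ((κ * ε / 4) * (2 * M)) := by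
          refine mul_le_mul_of_nonneg_left (mul_le_mul h5 (by linarith) (by positivity) (by positivity)) hN0.le
      _ = κ * N * (ε / 2 * M) := by ring
  have hbadG := markov M g (fun l => Nat.cast_nonneg _) (show 0 < κ * N by positivity) hgs
  -- the bad shifts
  set cw : ι → ℕ → ℕ → ℕ → ℂ := fun i m m' n => w i m (S^[n] y) * (starRingEnd ℂ) (w i m' (S^[n] y)) with hcw
  set bad : ι → ℕ → ℕ → Finset ℕ := fun i m m' => if m = m' then ∅ else
    (range M).filter fun l => η₀ * N < ‖∑ n ∈ range N, ((f (n + m) : ℂ) * f (n + m')) * cw i m m' (n + l)‖ with hbad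
  set V : Finset ℕ := (s.biUnion fun i => (range H₁).biUnion fun m => (range H₁).biUnion fun m' => bad i m m') ∪
    (range M).filter (fun l => κ * N < g l) with hV
  have hbadc : ∀ i ∈ s, ∀ m ∈ range H₁, ∀ m' ∈ range H₁, ((bad i m m').card : ℝ) ≤ κ₀ * M := by
    intro i hi m hm m' hm'
    by_cases h : m = m'
    · rw [hbad]
      simp only [if_pos h, card_empty, Nat.cast_zero]
      positivity
    · rw [hbad]
      simp only [if_neg h]
      refine hN₀ i m m' h N (by have := hle i hi m hm m' hm'; omega) hNE (cw i m m') (fun n => ?_) M hM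
      rw [hcw, norm_mul, RCLike.norm_conj]
      exact mul_le_mul (ContinuousMap.norm_coe_le_norm _ _) (ContinuousMap.norm_coe_le_norm _ _) (norm_nonneg _)
        (norm_nonneg _)
  refine ⟨V, ?_, fun l hlM hlV x hx θ => ?_⟩
  · have h3 : ((s.biUnion fun i => (range H₁).biUnion fun m => (range H₁).biUnion fun m' => bad i m m').card : ℝ) ≤
        s.card * (H₁ * (H₁ * (κ₀ * M))) := by
      calc ((s.biUnion fun i => (range H₁).biUnion fun m => (range H₁).biUnion fun m' => bad i m m').card : ℝ)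
          ≤ ∑ i ∈ s, (((range H₁).biUnion fun m => (range H₁).biUnion fun m' => bad i m m').card : ℝ) := by
            exact_mod_cast card_biUnion_le
        _ ≤ ∑ i ∈ s, ∑ m ∈ range H₁, (((range H₁).biUnion fun m' => bad i m m').card : ℝ) :=
            sum_le_sum fun i _ => by exact_mod_cast card_biUnion_le
        _ ≤ ∑ i ∈ s, ∑ m ∈ range H₁, ∑ m' ∈ range H₁, ((bad i m m').card : ℝ) :=
            sum_le_sum fun i _ => sum_le_sum fun m _ => by exact_mod_cast card_biUnion_le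
        _ ≤ ∑ i ∈ s, ∑ m ∈ range H₁, ∑ m' ∈ range H₁, κ₀ * M :=
            sum_le_sum fun i hi => sum_le_sum fun m hm => sum_le_sum fun m' hm' => hbadc i hi m hm m' hm'
        _ = _ := by simp only [sum_const, card_range, nsmul_eq_mul]
    have h4 : (s.card : ℝ) * (H₁ * (H₁ * (κ₀ * M))) ≤ ε / 2 * M := by
      have e1 : (s.card : ℝ) * (H₁ * (H₁ * (κ₀ * M))) = (s.card * H₁ ^ 2) * (κ₀ * M) := by ring
      have e2 : ε / 2 * M = D * (κ₀ * M) := by
        rw [hκ₀]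
        field_simp
      rw [e1, e2]
      refine mul_le_mul_of_nonneg_right ?_ (by positivity)
      rw [hD]
      have h5 : (0 : ℝ) ≤ s.card := Nat.cast_nonneg _
      have h6 : (H₁ : ℝ) ^ 2 ≤ (H₁ + 1) ^ 2 := by nlinarith
      exact mul_le_mul (by linarith) h6 (by positivity) (by positivity)
    have h5 : (V.card : ℝ) ≤ ((s.biUnion fun i => (range H₁).biUnion fun m =>
        (range H₁).biUnion fun m' => bad i m m').card : ℝ) + (((range M).filter (fun l => κ * N < g l)).card : ℝ) := by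
      exact_mod_cast card_union_le _ _
    linarith
  · rw [hV, mem_union, not_or] at hlV
    obtain ⟨hl1, hl2⟩ := hlV
    have hgl : g l ≤ κ * N := by
      by_contra h
      exact hl2 (mem_filter.2 ⟨mem_range.2 hlM, not_le.1 h⟩)
    have hit : ∀ n, S^[n] (S^[l] y) = S^[n + l] y := fun n => (Function.iterate_add_apply S n l y).symm
    have hoff : ∀ i ∈ s, ∀ m ∈ range H₁, ∀ m' ∈ range H₁, m ≠ m' →
        ‖∑ n ∈ range N, ((f (n + m) : ℂ) * f (n + m')) *
          (w i m (S^[n] (S^[l] y)) * (starRingEnd ℂ) (w i m' (S^[n] (S^[l] y))))‖ ≤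
        t ^ 2 * H₁ / ((s.card + 1) * (H₁ + 1) ^ 2) * N := by
      intro i hi m hm m' hm' hmm
      by_contra hcon
      push Not at hcon
      refine hl1 (mem_biUnion.2 ⟨i, hi, mem_biUnion.2 ⟨m, hm, mem_biUnion.2 ⟨m', hm', ?_⟩⟩⟩)
      rw [hbad]
      simp only [if_neg hmm]
      refine mem_filter.2 ⟨mem_range.2 hlM, ?_⟩
      refine lt_of_lt_of_le hcon (le_of_eq ?_)
      congr 1
      refine sum_congr rfl fun n _ => ?_
      rw [hcw, hit]
    have hq := quad_pt (S := S) hb s (fun i m => (w i m : Y → ℂ)) H₁ (t ^ 2 * H₁) (by positivity) N (S^[l] y) hoff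
    have hsh := fun x hx θ => fib_pt (T := T) (π := π) (F := F) hb hC s (fun i m => (w i m : Y → ℂ)) H₁ hH₁
      (t := t) (δ := 2 * δ) (κ := κ) ht0 hw (G := G) N (S^[l] y) ⟨(range N).filter fun n => n + l ∈ V₀,
        fun n hn hnG => by
          rw [hit] at hnG
          exact mem_filter.2 ⟨mem_range.2 hn, hV1 (n + l) (by omega) hnG⟩, hgl⟩ (by positivity) hc hq x hx θ
    have h4 := split_fib hπT hC hb θ (S^[l] y) N H H₁ hH₁ (fun x hx => hsh x hx θ) x hx
    have hδ1 : δ ≤ ε / 32 := (min_le_left _ _).trans (min_le_left _ _)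
    have hκ2 : κ * C ≤ ε / 32 := by
      rw [hκ, div_mul_eq_mul_div, div_le_div_iff₀ (by positivity) (by norm_num)]
      nlinarith
    have h5 : (H : ℝ) / H₁ * ((2 * δ + 2 * t + κ * C) * (H₁ * N)) ≤ ε / 4 * (H * N) := by
      calc (H : ℝ) / H₁ * ((2 * δ + 2 * t + κ * C) * (H₁ * N)) = (2 * δ + 2 * t + κ * C) * (H * N) := by field_simp
        _ ≤ ε / 4 * (H * N) := mul_le_mul_of_nonneg_right (by rw [ht]; linarith) (by positivity)
    have h6 : (H : ℝ) ^ 2 * C ≤ ε / 4 * (H * N) := by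
      have h7 : (4 * (H * C) / ε : ℝ) ≤ N := hN₃.trans (by exact_mod_cast (by omega : N₃ ≤ N))
      rw [div_le_iff₀ hε] at h7
      nlinarith
    have h8 : 2 * (H₁ : ℝ) * C * N ≤ ε / 4 * (H * N) := by
      have h9 : (8 * (H₁ * C) / ε : ℝ) ≤ H := hH₀.trans (by exact_mod_cast (by omega : H₀ ≤ H))
      rw [div_le_iff₀ hε] at h9
      nlinarith
    have h10 : 0 ≤ ε * (H * N) := by positivity
    linarith

end

end Pool.Agent.R296.MB
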