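import Pool.Agent.R296.MB.D

set_option autoImplicit false

/-! # Logarithmic averages at a fixed precision -/

namespace Pool.Agent.R296.MB

open Finset Filter Topology MeasureTheory

noncomputable section

/-- logarithmic averages from averages, fixed precision -/
theorem log_abs {ε C : ℝ} (hε : 0 < ε) (hC0 : 0 ≤ C) : ∃ ε₁ : ℝ, 0 < ε₁ ∧ ∀ {E : Set ℕ}, SM.LDZ E →
    ∀ {Y : Type} (P : Set Y) (𝓕 : Y → ℕ → Set (ℕ → ℝ)), (∀ y l, ∀ a ∈ 𝓕 y l, ∀ n, 0 ≤ a n ∧ a n ≤ C) →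
    (∃ N₀ : ℕ, ∀ N ≥ N₀, N ∉ E → ∀ M ≥ N, ∀ y ∈ P, ∃ V : Finset ℕ, (V.card : ℝ) ≤ ε₁ * M ∧
      ∀ l < M, l ∉ V → ∀ a ∈ 𝓕 y l, ∑ n ∈ Icc 1 N, a n ≤ ε₁ * N) →
    ∃ N₀ : ℕ, ∀ N ≥ N₀, ∀ M ≥ N, ∀ y ∈ P, ∃ V : Finset ℕ, (V.card : ℝ) ≤ ε * M ∧
      ∀ l < M, l ∉ V → ∀ a ∈ 𝓕 y l, ∑ n ∈ Icc 1 N, 1 / (n : ℝ) * a n ≤ ε * Real.log N := by
  classical
  set κ : ℝ := ε / (8 * (C + 1)) with hκ
  have hκ0 : 0 < κ := by positivity
  have hκC : C * κ ≤ ε / 8 := by
    rw [hκ, mul_div_assoc', div_le_div_iff₀ (by positivity) (by norm_num)]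
    nlinarith
  set ε₁ : ℝ := min (ε / 16) (κ * ε / 2) with hε₁
  have hε₁0 : 0 < ε₁ := lt_min (by positivity) (by positivity)
  refine ⟨ε₁, hε₁0, ?_⟩
  intro E hE Y P 𝓕 h𝓕 h1
  obtain ⟨N₀, h1⟩ := h1
  have h2 := hE.eventually (gt_mem_nhds hκ0)
  obtain ⟨N₂, hN₂⟩ := eventually_atTop.1 h2
  have h3 : ∀ᶠ N : ℕ in atTop, C * (N₀ + 1) ≤ ε / 8 * Real.log N := by
    have h4 := (Real.tendsto_log_atTop.comp tendsto_natCast_atTop_atTop).eventually_ge_atTop
      ((C * (N₀ + 1)) / (ε / 8))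
    refine h4.mono fun N hN => ?_
    simp only [Function.comp_apply] at hN
    rw [div_le_iff₀ (by positivity)] at hN
    linarith
  obtain ⟨N₃, hN₃⟩ := eventually_atTop.1 h3
  refine ⟨max 3 (max N₂ N₃), fun N hN M hM y hy => ?_⟩
  have hN3 : 3 ≤ N := le_trans (le_max_left _ _) hN
  have e2 := hN₂ N (le_trans (le_max_left _ _) (le_trans (le_max_right _ _) hN))
  have e3 := hN₃ N (le_trans (le_max_right _ _) (le_trans (le_max_right _ _) hN))
  have hN3' : (3 : ℝ) ≤ N := by exact_mod_cast hN3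
  have hlog1 : 1 ≤ Real.log N := by
    rw [Real.le_log_iff_exp_le (by linarith)]
    linarith [Real.exp_one_lt_d9]
  have hlog : 0 < Real.log N := by linarith
  have hex : ∀ m : ℕ, ∃ V : Finset ℕ, N₀ ≤ m → m ∉ E → m ≤ N → (V.card : ℝ) ≤ ε₁ * M ∧
      ∀ l < M, l ∉ V → ∀ a ∈ 𝓕 y l, ∑ n ∈ Icc 1 m, a n ≤ ε₁ * m := by
    intro m
    by_cases h : N₀ ≤ m ∧ m ∉ E ∧ m ≤ N
    · obtain ⟨V, hV⟩ := h1 m h.1 h.2.1 M (h.2.2.trans hM) y hy
      exact ⟨V, fun _ _ _ => hV⟩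
    · exact ⟨∅, fun a b c => absurd ⟨a, b, c⟩ h⟩
  choose V hV using hex
  set B : ℕ → ℕ → Prop := fun m l => N₀ ≤ m ∧ m ∉ E ∧ l ∈ V m with hB
  set L : ℕ → ℝ := fun l => ∑ m ∈ Icc 1 N, 1 / (m : ℝ) * (if B m l then 1 else 0) with hL
  have hL0 : ∀ l, 0 ≤ L l := fun l => sum_nonneg fun m _ => by split_ifs <;> positivity
  have hharm := SM.harm_le N
  have hM0 : (0 : ℝ) ≤ M := Nat.cast_nonneg M
  have hLs : ∑ l ∈ range M, L l ≤ κ * Real.log N * (ε * M) := by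
    have h4 : ∑ l ∈ range M, L l = ∑ m ∈ Icc 1 N, 1 / (m : ℝ) * ∑ l ∈ range M, (if B m l then (1 : ℝ) else 0) := by
      rw [hL, sum_comm]
      exact sum_congr rfl fun m _ => (mul_sum _ _ _).symm
    rw [h4]
    have h5 : ∀ m ∈ Icc 1 N, 1 / (m : ℝ) * ∑ l ∈ range M, (if B m l then (1 : ℝ) else 0) ≤ ε₁ * M * (1 / (m : ℝ)) := by
      intro m hm
      rw [mem_Icc] at hm
      rw [mul_comm (ε₁ * M)]
      refine mul_le_mul_of_nonneg_left ?_ (by positivity)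
      rw [← sum_filter, sum_const, nsmul_eq_mul, mul_one]
      by_cases h : N₀ ≤ m ∧ m ∉ E
      · have h6 : ((range M).filter fun l => B m l) ⊆ V m := by
          intro l hl
          exact (mem_filter.1 hl).2.2.2
        have h7 : (((range M).filter fun l => B m l).card : ℝ) ≤ (V m).card := by exact_mod_cast card_le_card h6
        exact h7.trans (hV m h.1 h.2 hm.2).1
      · have h6 : ((range M).filter fun l => B m l) = ∅ := filter_false_of_mem fun l _ hl => h ⟨hl.1, hl.2.1⟩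
        rw [h6, card_empty, Nat.cast_zero]
        positivity
    refine (sum_le_sum h5).trans ?_
    rw [← mul_sum]
    have h6 : ε₁ ≤ κ * ε / 2 := min_le_right _ _
    calc ε₁ * M * ∑ m ∈ Icc 1 N, 1 / (m : ℝ) ≤ ε₁ * M * (2 * Real.log N) :=
          mul_le_mul_of_nonneg_left (by linarith) (by positivity)
      _ ≤ κ * ε / 2 * M * (2 * Real.log N) := by
          refine mul_le_mul_of_nonneg_right (mul_le_mul_of_nonneg_right h6 hM0) (by positivity)
      _ = κ * Real.log N * (ε * M) := by ring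
  have hbad := markov M L hL0 (show 0 < κ * Real.log N by positivity) hLs
  refine ⟨(range M).filter fun l => κ * Real.log N < L l, hbad, fun l hl hlV a ha => ?_⟩
  have hLl : L l ≤ κ * Real.log N := by
    by_contra h
    exact hlV (mem_filter.2 ⟨mem_range.2 hl, not_le.1 h⟩)
  set b : ℕ → ℂ := fun n => (a n : ℂ) with hbd
  have hb1 : ∀ n, ‖b n‖ ≤ C := by
    intro n
    rw [hbd, Complex.norm_real, Real.norm_of_nonneg (h𝓕 y l a ha n).1]
    exact (h𝓕 y l a ha n).2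
  have hbs : ∀ m : ℕ, ‖∑ k ∈ Icc 1 m, b k‖ = ∑ k ∈ Icc 1 m, a k := by
    intro m
    rw [hbd, ← Complex.ofReal_sum, Complex.norm_real, Real.norm_of_nonneg (sum_nonneg fun n _ => (h𝓕 y l a ha n).1)]
  have hS : ∀ m : ℕ, ‖∑ k ∈ Icc 1 m, b k‖ ≤ C * m := by
    intro m
    refine (norm_sum_le _ _).trans ?_
    calc ∑ k ∈ Icc 1 m, ‖b k‖ ≤ ∑ _k ∈ Icc 1 m, C := sum_le_sum fun k _ => hb1 k
      _ = C * m := by rw [sum_const, Nat.card_Icc, nsmul_eq_mul, Nat.add_sub_cancel]; ring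
  have e0 : ∑ n ∈ Icc 1 N, 1 / (n : ℝ) * a n = ‖∑ m ∈ Icc 1 N, (1 / (m : ℂ)) • b m‖ := by
    have e : ∑ m ∈ Icc 1 N, (1 / (m : ℂ)) • b m = ((∑ m ∈ Icc 1 N, 1 / (m : ℝ) * a m : ℝ) : ℂ) := by
      rw [Complex.ofReal_sum]
      refine sum_congr rfl fun m _ => ?_
      rw [smul_eq_mul, hbd]
      push_cast
      ring
    rw [e, Complex.norm_real, Real.norm_of_nonneg (sum_nonneg fun n _ =>
      mul_nonneg (by positivity) (h𝓕 y l a ha n).1)]
  rw [e0, SM.abel]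
  have e4 : ‖(1 / ((N : ℂ) + 1)) • ∑ k ∈ Icc 1 N, b k‖ ≤ C := by
    rw [norm_smul, norm_div, norm_one]
    have : ‖(N : ℂ) + 1‖ = N + 1 := by
      rw [← Nat.cast_succ, Complex.norm_natCast]; push_cast; rfl
    rw [this, one_div, inv_mul_le_iff₀ (by positivity)]
    refine (hS N).trans ?_
    nlinarith
  have e5 : ∀ m ∈ Icc 1 N, ‖(1 / ((m : ℂ) * (m + 1))) • (∑ k ∈ Icc 1 m, b k)‖ ≤
      (if m < N₀ then C else 0) + ε₁ * (1 / (m : ℝ)) + C * (if m ∈ E then (1 : ℝ) / m else 0) +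
        C * (1 / (m : ℝ) * (if B m l then 1 else 0)) := by
    intro m hm
    rw [mem_Icc] at hm
    have hm0 : (0 : ℝ) < m := by exact_mod_cast hm.1
    have e6 : ‖(1 / ((m : ℂ) * (m + 1)))‖ = 1 / ((m : ℝ) * (m + 1)) := by
      rw [norm_div, norm_one, norm_mul, ← Nat.cast_succ, Complex.norm_natCast, Complex.norm_natCast]
      push_cast; rfl
    rw [norm_smul, e6]
    have n1 : 0 ≤ ε₁ * (1 / (m : ℝ)) := by positivity
    have n2 : 0 ≤ (if m < N₀ then C else 0) := by split_ifs <;> simp [hC0]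
    have n3 : 0 ≤ C * (if m ∈ E then (1 : ℝ) / m else 0) := by split_ifs <;> positivity
    have n4 : 0 ≤ C * (1 / (m : ℝ) * (if B m l then 1 else 0)) := by split_ifs <;> positivity
    have triv : 1 / ((m : ℝ) * (m + 1)) * ‖∑ k ∈ Icc 1 m, b k‖ ≤ C * (1 / m) := by
      calc 1 / ((m : ℝ) * (m + 1)) * ‖∑ k ∈ Icc 1 m, b k‖ ≤ 1 / ((m : ℝ) * (m + 1)) * (C * m) :=
            mul_le_mul_of_nonneg_left (hS m) (by positivity)
        _ = C * (1 / (m + 1)) := by field_simp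
        _ ≤ C * (1 / m) := by
            apply mul_le_mul_of_nonneg_left _ hC0
            exact one_div_le_one_div_of_le hm0 (by linarith)
    have hm1 : (1 : ℝ) ≤ m := by exact_mod_cast hm.1
    by_cases hmE : m ∈ E
    · rw [if_pos hmE] at n3 ⊢
      linarith
    by_cases hm2 : m < N₀
    · rw [if_pos hm2]
      have : C * (1 / (m : ℝ)) ≤ C * 1 := by
        apply mul_le_mul_of_nonneg_left _ hC0
        rw [div_le_one hm0]
        exact hm1
      linarith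
    by_cases hmV : l ∈ V m
    · rw [if_pos (show B m l from ⟨not_lt.1 hm2, hmE, hmV⟩)]
      linarith
    · have h6 := (hV m (not_lt.1 hm2) hmE hm.2).2 l hl hmV a ha
      rw [← hbs] at h6
      have h7 : 1 / ((m : ℝ) * (m + 1)) * ‖∑ k ∈ Icc 1 m, b k‖ ≤ ε₁ * (1 / m) := by
        calc 1 / ((m : ℝ) * (m + 1)) * ‖∑ k ∈ Icc 1 m, b k‖ ≤ 1 / ((m : ℝ) * (m + 1)) * (ε₁ * m) :=
              mul_le_mul_of_nonneg_left h6 (by positivity)
          _ = ε₁ * (1 / (m + 1)) := by field_simp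
          _ ≤ ε₁ * (1 / m) := by
              apply mul_le_mul_of_nonneg_left _ hε₁0.le
              exact one_div_le_one_div_of_le hm0 (by linarith)
      linarith
  have e8 : ∑ m ∈ Icc 1 N, (if m < N₀ then C else 0) ≤ C * N₀ := by
    rw [← sum_filter, sum_const, nsmul_eq_mul, mul_comm]
    apply mul_le_mul_of_nonneg_left _ hC0
    have : ((Icc 1 N).filter fun m => m < N₀) ⊆ range N₀ := by
      intro m hm
      rw [mem_filter] at hm
      exact mem_range.2 hm.2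
    have := card_le_card this
    rw [card_range] at this
    exact_mod_cast this
  have e9 : C * ∑ m ∈ Icc 1 N, (if m ∈ E then (1 : ℝ) / m else 0) ≤ ε / 8 * Real.log N := by
    rw [div_lt_iff₀ hlog] at e2
    calc C * ∑ m ∈ Icc 1 N, (if m ∈ E then (1 : ℝ) / m else 0) ≤ C * (κ * Real.log N) :=
          mul_le_mul_of_nonneg_left e2.le hC0
      _ = C * κ * Real.log N := by ring
      _ ≤ _ := mul_le_mul_of_nonneg_right hκC hlog.le
  have e10 : C * L l ≤ ε / 8 * Real.log N := by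
    calc C * L l ≤ C * (κ * Real.log N) := mul_le_mul_of_nonneg_left hLl hC0
      _ = C * κ * Real.log N := by ring
      _ ≤ _ := mul_le_mul_of_nonneg_right hκC hlog.le
  have e11 : ε₁ * ∑ m ∈ Icc 1 N, 1 / (m : ℝ) ≤ ε / 8 * Real.log N := by
    calc ε₁ * ∑ m ∈ Icc 1 N, 1 / (m : ℝ) ≤ ε / 16 * (2 * Real.log N) := by
          refine mul_le_mul (min_le_left _ _) (by linarith) (sum_nonneg fun m _ => by positivity) (by positivity)
      _ = _ := by ring
  calc _ ≤ ‖∑ m ∈ Icc 1 N, (1 / ((m : ℂ) * (m + 1))) • (∑ k ∈ Icc 1 m, b k)‖ + C :=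
        (norm_add_le _ _).trans (add_le_add le_rfl e4)
    _ ≤ ∑ m ∈ Icc 1 N, ((if m < N₀ then C else 0) + ε₁ * (1 / (m : ℝ)) + C * (if m ∈ E then (1 : ℝ) / m else 0) +
        C * (1 / (m : ℝ) * (if B m l then 1 else 0))) + C :=
        add_le_add ((norm_sum_le _ _).trans (sum_le_sum e5)) le_rfl
    _ = ∑ m ∈ Icc 1 N, (if m < N₀ then C else 0) + ε₁ * ∑ m ∈ Icc 1 N, 1 / (m : ℝ) +
        C * ∑ m ∈ Icc 1 N, (if m ∈ E then (1 : ℝ) / m else 0) + C * L l + C := by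
        rw [sum_add_distrib, sum_add_distrib, sum_add_distrib, ← mul_sum, ← mul_sum, ← mul_sum]
    _ ≤ _ := by
        have : 0 < ε * Real.log N := by positivity
        linarith


end

end Pool.Agent.R296.MB
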